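import Pool.Agent.Q187.Steiner.Main

/-!
# MP_c699aa_gt: full convergence of iterated Steiner symmetrizations

For an arbitrary nonempty compact set `E` of `ℝⁿ` (finite perimeter and nonempty interior are not
needed) and an arbitrary sequence of directions: if some subsequence of the iterated Steiner
symmetrals `E_i` converges to the centred ball `E⋆` of the same volume in the Hausdorff distance,
then the whole sequence does.

Proof.  The outer radius of `E_i` does not increase, and neither does the volume of `E⋆ \ E_i`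
(Fubini along the lines of direction `u_{i+1}`).  Along the subsequence the outer radius tends to
that of `E⋆`; as the volumes are equal, the volume of `E⋆ \ E_i` tends to `0` along the subsequence,
hence along the whole sequence, and therefore every point of `E⋆` is close to `E_i`.
-/

set_option autoImplicit false

open MeasureTheory Set Filter Topology Metric
open scoped RealInnerProductSpace ENNReal Pointwise

namespace Pool.Agent.Results.MP_c699aa_gt.FullConvergence

/-- The Steiner symmetral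
`S_u E = {x' + t u : x' ∈ π_u(E), |t| ≤ ℓ_{E,u}(x') / 2}`, where `π_u(E)` is the orthogonal
projection of `E` to the hyperplane orthogonal to `u` and `ℓ_{E,u}(x')` is the one-dimensional
measure of `{s | x' + s u ∈ E}`. -/
def steiner {n : ℕ} (u : EuclideanSpace ℝ (Fin n)) (E : Set (EuclideanSpace ℝ (Fin n))) :
    Set (EuclideanSpace ℝ (Fin n)) :=
  {y | ∃ (x' : EuclideanSpace ℝ (Fin n)) (t : ℝ), ⟪x', u⟫ = 0 ∧ (∃ s : ℝ, x' + s • u ∈ E) ∧
    |t| ≤ (volume {s : ℝ | x' + s • u ∈ E}).toReal / 2 ∧ y = x' + t • u}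

/-- The iterated symmetrals: `E_0 = E` and `E_{i+1} = S_{u_{i+1}} E_i`; the direction `u_{i+1}` is
`u i`. -/
def iterate {n : ℕ} (u : ℕ → EuclideanSpace ℝ (Fin n)) (E : Set (EuclideanSpace ℝ (Fin n))) :
    ℕ → Set (EuclideanSpace ℝ (Fin n))
  | 0 => E
  | i + 1 => steiner (u i) (iterate u E i)

/-- The Hausdorff distance: the least `lam ≥ 0` with `E ⊆ F + lam Bⁿ` and `F ⊆ E + lam Bⁿ`. -/
noncomputable def dH {n : ℕ} (E F : Set (EuclideanSpace ℝ (Fin n))) : ℝ :=
  sInf {lam : ℝ | 0 ≤ lam ∧ E ⊆ F + closedBall 0 lam ∧ F ⊆ E + closedBall 0 lam}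

lemma steiner_eq {n : ℕ} (u : EuclideanSpace ℝ (Fin n)) (E : Set (EuclideanSpace ℝ (Fin n))) :
    steiner u E = Pool.Agent.H318R3.St.sym u E := by
  ext y
  constructor
  · rintro ⟨x, t, h1, h2, h3, h4⟩
    exact ⟨x, t, h4, h1, h2, by
      have : (volume {s : ℝ | x + s • u ∈ E}).toReal =
        (volume (Pool.Agent.H318R3.St.chord u x E)).toReal := rfl
      linarith⟩
  · rintro ⟨x, t, h4, h1, h2, h3⟩
    exact ⟨x, t, h1, h2, by
      have : (volume {s : ℝ | x + s • u ∈ E}).toReal =
        (volume (Pool.Agent.H318R3.St.chord u x E)).toReal := rfl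
      linarith, h4⟩

lemma iterate_eq {n : ℕ} (u : ℕ → EuclideanSpace ℝ (Fin n))
    (E : Set (EuclideanSpace ℝ (Fin n))) (i : ℕ) : iterate u E i = Q187.Steiner.iter u E i := by
  induction i with
  | zero => rfl
  | succ i ih =>
    show steiner (u i) (iterate u E i) = Pool.Agent.H318R3.St.sym (u i) (Q187.Steiner.iter u E i)
    rw [steiner_eq, ih]

lemma dH_le {n : ℕ} {E F : Set (EuclideanSpace ℝ (Fin n))} {lam : ℝ} (h0 : 0 ≤ lam)
    (h1 : E ⊆ F + closedBall 0 lam) (h2 : F ⊆ E + closedBall 0 lam) : dH E F ≤ lam := by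
  apply csInf_le
  · exact ⟨0, fun x hx => hx.1⟩
  · exact ⟨h0, h1, h2⟩

lemma dH_nonneg {n : ℕ} (E F : Set (EuclideanSpace ℝ (Fin n))) : 0 ≤ dH E F :=
  Real.sInf_nonneg fun x hx => hx.1

/-- **Full convergence of iterated Steiner symmetrizations.** -/
theorem result (n : ℕ) (E : Set (EuclideanSpace ℝ (Fin n))) (hE : IsCompact E)
    (hne : E.Nonempty) (r : ℝ) (hr : 0 ≤ r)
    (hvol : volume (closedBall (0 : EuclideanSpace ℝ (Fin n)) r) = volume E)
    (u : ℕ → EuclideanSpace ℝ (Fin n)) (hu : ∀ i, ‖u i‖ = 1)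
    (φ : ℕ → ℕ) (hφ : StrictMono φ)
    (hsub : Tendsto (fun j => dH (iterate u E (φ j)) (closedBall 0 r)) atTop (𝓝 0)) :
    Tendsto (fun i => dH (iterate u E i) (closedBall 0 r)) atTop (𝓝 0) := by
  have hcpt : ∀ i, IsCompact (iterate u E i) := by
    intro i; rw [iterate_eq]; exact Q187.Steiner.iter_compact hu hE i
  have hnonempty : ∀ i, (iterate u E i).Nonempty := by
    intro i; rw [iterate_eq]; exact Q187.Steiner.iter_nonempty hu hne i
  have hin : ∀ δ : ℝ, 0 < δ → ∃ i, Q187.Steiner.iter u E i ⊆ closedBall 0 (r + δ) := by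
    intro δ hδ
    obtain ⟨j, hj⟩ := (hsub.eventually (gt_mem_nhds hδ)).exists
    refine ⟨φ j, ?_⟩
    rw [← iterate_eq]
    -- the set of admissible `lam` is nonempty
    have hS : {lam : ℝ | 0 ≤ lam ∧ iterate u E (φ j) ⊆ closedBall 0 r + closedBall 0 lam ∧
        closedBall 0 r ⊆ iterate u E (φ j) + closedBall 0 lam}.Nonempty := by
      obtain ⟨ρ, hρ⟩ := (hcpt (φ j)).isBounded.subset_closedBall 0
      obtain ⟨z, hz⟩ := hnonempty (φ j)
      have hzρ : ‖z‖ ≤ ρ := by
        have := hρ hz
        rwa [mem_closedBall_zero_iff] at this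
      have hρ0 : 0 ≤ ρ := (norm_nonneg _).trans hzρ
      refine ⟨r + ρ, by positivity, fun x hx => ?_, fun x hx => ?_⟩
      · have hxρ : ‖x‖ ≤ ρ := by
          have := hρ hx
          rwa [mem_closedBall_zero_iff] at this
        exact ⟨0, by simpa using hr, x, by rw [mem_closedBall_zero_iff]; linarith, by simp⟩
      · rw [mem_closedBall_zero_iff] at hx
        refine ⟨z, hz, x - z, ?_, by simp⟩
        rw [mem_closedBall_zero_iff]
        exact (norm_sub_le _ _).trans (by linarith)
    obtain ⟨lam, ⟨hl0, hl1, -⟩, hlδ⟩ := exists_lt_of_csInf_lt hS hj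
    intro x hx
    obtain ⟨a, ha, b, hb, rfl⟩ := hl1 hx
    rw [mem_closedBall_zero_iff] at ha hb ⊢
    exact (norm_add_le _ _).trans (by linarith)
  rw [Metric.tendsto_atTop]
  intro ε hε
  obtain ⟨N, hN⟩ := Q187.Steiner.eventually_close hu hE hne hr hvol hin (half_pos hε)
  refine ⟨N, fun i hi => ?_⟩
  obtain ⟨h1, h2⟩ := hN i hi
  rw [← iterate_eq] at h1 h2
  have h3 : dH (iterate u E i) (closedBall 0 r) ≤ ε / 2 := by
    apply dH_le (by linarith)
    · intro x hx
      have h4 := h1 hx
      rw [mem_closedBall_zero_iff] at h4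
      by_cases hxr : ‖x‖ ≤ r
      · exact ⟨x, by rwa [mem_closedBall_zero_iff], 0, by simp; linarith, by simp⟩
      · push Not at hxr
        have hx0 : 0 < ‖x‖ := hr.trans_lt hxr
        refine ⟨(r / ‖x‖) • x, ?_, (1 - r / ‖x‖) • x, ?_, by simp only; module⟩
        · rw [mem_closedBall_zero_iff, norm_smul, Real.norm_eq_abs, abs_of_nonneg (by positivity)]
          field_simp
          exact le_rfl
        · rw [mem_closedBall_zero_iff, norm_smul, Real.norm_eq_abs, abs_of_nonneg]
          · rw [sub_mul, one_mul, div_mul_cancel₀ _ hx0.ne']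
            linarith
          · rw [sub_nonneg, div_le_one hx0]
            exact hxr.le
    · intro x hx
      obtain ⟨z, hz, hd⟩ := h2 x hx
      refine ⟨z, hz, x - z, ?_, by simp⟩
      rw [mem_closedBall_zero_iff, ← dist_eq_norm]
      exact hd
  rw [Real.dist_eq, sub_zero, abs_of_nonneg (dH_nonneg _ _)]
  linarith

end Pool.Agent.Results.MP_c699aa_gt.FullConvergence
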